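import Pool.Agent.Q7.LK.Stm

/-!
# Job LK-LOCV (helper65, for project LK of helper7): the number of the local classes modulo `p`-th powers

Parts are taken from the template `Pool.Agent.Q96.LQ.LOC` of helper96.
-/

set_option autoImplicit false

namespace Pool.Agent.Q65.LK

open NumberField IsDedekindDomain Pool.Agent.Q7.LK

/-- the index of the `n`-th powers is the number of the elements with `n`-th power `1` -/
theorem card_quot_pow (n : ℕ) (G : Type) [CommGroup G] [Finite G] :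
    Nat.card (G ⧸ (powMonoidHom n : G →* G).range) = Nat.card (powMonoidHom n : G →* G).ker := by
  have h1 := (powMonoidHom n : G →* G).ker.card_mul_index
  rw [Subgroup.index_ker] at h1
  have h2 := (powMonoidHom n : G →* G).range.card_mul_index
  have h3 : 0 < Nat.card (powMonoidHom n : G →* G).range := Nat.card_pos
  have h4 : (powMonoidHom n : G →* G).range.index
      = Nat.card (G ⧸ (powMonoidHom n : G →* G).range) := rfl
  rw [← h4]
  apply Nat.eq_of_mul_eq_mul_left h3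
  rw [h2, ← h1, mul_comm]

/-- `x^n - 1 = ∏ (x - ζ^k)` -/
theorem prod_sub_pow {K : Type} [Field K] (n : ℕ) (hn : 0 < n) (ζ : K) (hζ : IsPrimitiveRoot ζ n)
    (x : K) : ∏ k ∈ Finset.range n, (x - ζ ^ k) = x ^ n - 1 := by
  have h := X_pow_sub_C_eq_prod hζ hn (one_pow n)
  have h2 := congrArg (Polynomial.eval x) h
  rw [Polynomial.eval_prod] at h2
  simp only [Polynomial.eval_sub, Polynomial.eval_pow, Polynomial.eval_X, Polynomial.eval_C,
    mul_one] at h2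
  exact h2.symm

section Loc

variable {F : Type} [Field F] [NumberField F]

theorem cardW (v : HeightOneSpectrum (𝓞 F)) (e : ℕ) :
    Nat.card (Submodule.map (v.asIdeal ^ (2 * e + 1)).mkQ (v.asIdeal ^ (e + 1))) =
      Ideal.absNorm v.asIdeal ^ e := by
  have hle : v.asIdeal ^ (2 * e + 1) ≤ v.asIdeal ^ (e + 1) := Ideal.pow_le_pow_right (by omega)
  have h1 := Submodule.card_quotient_mul_card_quotient (v.asIdeal ^ (e + 1))
    (v.asIdeal ^ (2 * e + 1)) hle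
  have h2 : ∀ k : ℕ, Nat.card (𝓞 F ⧸ v.asIdeal ^ k) = Ideal.absNorm v.asIdeal ^ k := by
    intro k
    rw [← map_pow, Ideal.absNorm_apply, Submodule.cardQuot_apply]
  rw [h2, h2] at h1
  have h3 : 0 < Ideal.absNorm v.asIdeal := by
    rw [Nat.pos_iff_ne_zero, Ne, Ideal.absNorm_eq_zero_iff]
    exact v.ne_bot
  apply Nat.eq_of_mul_eq_mul_right (pow_pos h3 (e + 1))
  rw [h1, ← pow_add]
  congr 1
  omega

theorem fin_quot (v : HeightOneSpectrum (𝓞 F)) (k : ℕ) : Finite (𝓞 F ⧸ v.asIdeal ^ k) := by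
  rw [← Ideal.absNorm_ne_zero_iff, map_pow]
  apply pow_ne_zero
  rw [Ne, Ideal.absNorm_eq_zero_iff]
  exact v.ne_bot

/-- an element whose `p`-th power is close to `1` is close to a root of unity -/
theorem near_root (p : ℕ) (hp : 0 < p) (ζ : F) (hζ : IsPrimitiveRoot ζ p)
    (v : HeightOneSpectrum (𝓞 F)) (e : ℕ) (he : v.valuation F (p : F) = WithZero.exp (-(e : ℤ)))
    (z : F) (hz : v.valuation F (z ^ p - 1) ≤ WithZero.exp (-((2 * e + 1 : ℕ) : ℤ))) :
    ∃ i ∈ Finset.range p, v.valuation F (z - ζ ^ i) ≤ WithZero.exp (-((e + 1 : ℕ) : ℤ)) := by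
  classical
  obtain ⟨i, hi, hmin⟩ := Finset.exists_min_image (Finset.range p)
    (fun i => v.valuation F (z - ζ ^ i)) ⟨0, Finset.mem_range.2 hp⟩
  refine ⟨i, hi, ?_⟩
  have hζ0 : ζ ≠ 0 := hζ.ne_zero hp.ne'
  have hζ1 : v.valuation F ζ = 1 := by
    have h1 : v.valuation F ζ ^ p = 1 ^ p := by rw [← map_pow, hζ.pow_eq_one, map_one, one_pow]
    exact (pow_left_inj₀ (by simp) (by simp) hp.ne').mp h1
  -- shift
  have hshift : ∀ k : ℕ, v.valuation F (z - ζ ^ i) ≤ v.valuation F (z - ζ ^ (i + k)) := by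
    intro k
    have h1 : ζ ^ (i + k) = ζ ^ ((i + k) % p) := by
      conv_lhs => rw [← Nat.mod_add_div (i + k) p]
      rw [pow_add, pow_mul, hζ.pow_eq_one, one_pow, mul_one]
    rw [h1]
    exact hmin _ (Finset.mem_range.2 (Nat.mod_lt _ hp))
  have hprod : ∏ k ∈ Finset.range p, (z - ζ ^ (i + k)) = z ^ p - 1 := by
    have h1 := prod_sub_pow p hp ζ hζ (z * (ζ ^ i)⁻¹)
    have h2 : ∀ k ∈ Finset.range p, z - ζ ^ (i + k) = ζ ^ i * (z * (ζ ^ i)⁻¹ - ζ ^ k) := by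
      intro k _
      have h3 : ζ ^ i ≠ 0 := pow_ne_zero _ hζ0
      rw [mul_sub, pow_add]
      field_simp
    rw [Finset.prod_congr rfl h2, Finset.prod_mul_distrib, h1, Finset.prod_const,
      Finset.card_range]
    have h4 : (ζ ^ i) ^ p = 1 := by rw [← pow_mul, mul_comm, pow_mul, hζ.pow_eq_one, one_pow]
    rw [h4, one_mul, mul_pow, inv_pow, h4, inv_one, mul_one]
  -- the factors with k ≠ 0
  obtain ⟨n, rfl⟩ : ∃ n, p = n + 1 := ⟨p - 1, by omega⟩
  have hn := hζ.prod_one_sub_pow_eq_order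
  rw [Finset.prod_range_succ'] at hprod
  have hge : v.valuation F ((n + 1 : ℕ) : F) ≤
      v.valuation F (∏ k ∈ Finset.range n, (z - ζ ^ (i + (k + 1)))) := by
    have h1 : ((n + 1 : ℕ) : F) = ∏ k ∈ Finset.range n, (1 - ζ ^ (k + 1)) := by
      rw [hn]
      push_cast
      rfl
    rw [h1, map_prod, map_prod]
    refine Finset.prod_le_prod' fun k _ => ?_
    have h2 : v.valuation F (1 - ζ ^ (k + 1)) = v.valuation F (ζ ^ i - ζ ^ (i + (k + 1))) := by
      have : ζ ^ i - ζ ^ (i + (k + 1)) = ζ ^ i * (1 - ζ ^ (k + 1)) := by rw [pow_add]; ring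
      rw [this, map_mul, map_pow, hζ1, one_pow, one_mul]
    rw [h2]
    have h3 : ζ ^ i - ζ ^ (i + (k + 1)) = (z - ζ ^ (i + (k + 1))) - (z - ζ ^ i) := by ring
    rw [h3]
    exact (v.valuation F).map_sub_le le_rfl (hshift (k + 1))
  rw [← hprod, map_mul] at hz
  rw [he] at hge
  have h5 : WithZero.exp (-(e : ℤ)) * v.valuation F (z - ζ ^ i) ≤
      WithZero.exp (-((2 * e + 1 : ℕ) : ℤ)) := by
    refine le_trans (mul_le_mul' hge ?_) hz
    rw [add_zero]
  have h6 : (WithZero.exp (-(e : ℤ)) : WithZero (Multiplicative ℤ)) * WithZero.exp (e : ℤ) = 1 := by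
    rw [← WithZero.exp_add, neg_add_cancel, WithZero.exp_zero]
  calc v.valuation F (z - ζ ^ i) =
        WithZero.exp (e : ℤ) * (WithZero.exp (-(e : ℤ)) * v.valuation F (z - ζ ^ i)) := by
        rw [← mul_assoc, mul_comm (WithZero.exp (e : ℤ)), h6, one_mul]
    _ ≤ WithZero.exp (e : ℤ) * WithZero.exp (-((2 * e + 1 : ℕ) : ℤ)) := mul_le_mul' le_rfl h5
    _ = WithZero.exp (-((e + 1 : ℕ) : ℤ)) := by
        rw [← WithZero.exp_add]
        congr 1
        push_cast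
        ring

theorem ker_card (p : ℕ) (hp : 0 < p) (ζ : F) (hζ : IsPrimitiveRoot ζ p)
    (v : HeightOneSpectrum (𝓞 F)) (e : ℕ) (he : v.valuation F (p : F) = WithZero.exp (-(e : ℤ))) :
    Nat.card (powMonoidHom p : (𝓞 F ⧸ v.asIdeal ^ (2 * e + 1))ˣ →* _).ker ≤
      p * Ideal.absNorm v.asIdeal ^ e := by
  classical
  have hf := fin_quot v (2 * e + 1)
  have : NeZero p := ⟨hp.ne'⟩
  set W := Submodule.map (v.asIdeal ^ (2 * e + 1)).mkQ (v.asIdeal ^ (e + 1)) with hW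
  let ζ0 : 𝓞 F := hζ.toInteger
  have hζ0 : algebraMap (𝓞 F) F ζ0 = ζ := rfl
  have key : ∀ z : (powMonoidHom p : (𝓞 F ⧸ v.asIdeal ^ (2 * e + 1))ˣ →* _).ker,
      ∃ i : Fin p, ((z : (𝓞 F ⧸ v.asIdeal ^ (2 * e + 1))ˣ) : 𝓞 F ⧸ v.asIdeal ^ (2 * e + 1)) -
        Ideal.Quotient.mk _ (ζ0 ^ (i : ℕ)) ∈ W := by
    rintro ⟨z, hz⟩
    rw [MonoidHom.mem_ker, powMonoidHom_apply] at hz
    have hz' : (z : 𝓞 F ⧸ v.asIdeal ^ (2 * e + 1)) ^ p = 1 := by
      rw [← Units.val_pow_eq_pow_val, hz, Units.val_one]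
    obtain ⟨β, hβ⟩ := Ideal.Quotient.mk_surjective (z : 𝓞 F ⧸ v.asIdeal ^ (2 * e + 1))
    have h1 : β ^ p - 1 ∈ v.asIdeal ^ (2 * e + 1) := by
      rw [← Ideal.Quotient.eq_zero_iff_mem, map_sub, map_pow, map_one, hβ, hz', sub_self]
    rw [← v.intValuation_le_pow_iff_mem, ← v.valuation_of_algebraMap (K := F)] at h1
    have e1 : algebraMap (𝓞 F) F (β ^ p - 1) = (algebraMap (𝓞 F) F β) ^ p - 1 := by
      rw [map_sub, map_pow, map_one]
    have h1' : v.valuation F ((algebraMap (𝓞 F) F β) ^ p - 1) ≤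
        WithZero.exp (-((2 * e + 1 : ℕ) : ℤ)) := by
      rw [← e1]
      exact h1
    obtain ⟨i, hi, h2⟩ := near_root p hp ζ hζ v e he _ h1'
    refine ⟨⟨i, Finset.mem_range.1 hi⟩, ?_⟩
    have e2 : algebraMap (𝓞 F) F β - ζ ^ i = algebraMap (𝓞 F) F (β - ζ0 ^ i) := by
      rw [map_sub, map_pow, hζ0]
    rw [e2, v.valuation_of_algebraMap, v.intValuation_le_pow_iff_mem] at h2
    rw [hW, Submodule.mem_map]
    refine ⟨β - ζ0 ^ i, h2, ?_⟩
    show Ideal.Quotient.mk _ (β - ζ0 ^ i) = (z : 𝓞 F ⧸ v.asIdeal ^ (2 * e + 1)) -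
      Ideal.Quotient.mk _ (ζ0 ^ i)
    rw [map_sub, hβ]
  choose I hI using key
  have hWf : Finite W := Subtype.finite
  let g : (powMonoidHom p : (𝓞 F ⧸ v.asIdeal ^ (2 * e + 1))ˣ →* _).ker → Fin p × W := fun z =>
    (I z, ⟨_, hI z⟩)
  have hg : Function.Injective g := by
    intro z z' h
    simp only [g, Prod.mk.injEq, Subtype.mk.injEq] at h
    obtain ⟨h1, h2⟩ := h
    rw [h1] at h2
    exact Subtype.ext (Units.ext (sub_left_injective h2))
  calc _ ≤ Nat.card (Fin p × W) := Nat.card_le_card_of_injective g hg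
    _ = p * Ideal.absNorm v.asIdeal ^ e := by
      rw [Nat.card_prod, hW, cardW]
      simp

theorem exists_unit (v : HeightOneSpectrum (𝓞 F)) (e : ℕ) (b : F) (hb : v.valuation F b = 1) :
    ∃ (β : 𝓞 F) (u : (𝓞 F ⧸ v.asIdeal ^ (2 * e + 1))ˣ),
      v.valuation F (algebraMap (𝓞 F) F β - b) ≤ WithZero.exp (-((2 * e + 1 : ℕ) : ℤ)) ∧
      v.valuation F (algebraMap (𝓞 F) F β) = 1 ∧
      (u : 𝓞 F ⧸ v.asIdeal ^ (2 * e + 1)) = Ideal.Quotient.mk _ β := by
  have hu : (WithZero.exp (-((2 * e + 1 : ℕ) : ℤ)) : WithZero (Multiplicative ℤ)) ≠ 0 := by simp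
  obtain ⟨β, hβ⟩ := v.exists_valuation_sub_lt_of_integer (K := F) (x := b) hb.le (Units.mk0 _ hu)
  rw [Units.val_mk0] at hβ
  have h1 : v.valuation F (algebraMap (𝓞 F) F β - b) < v.valuation F b := by
    rw [hb]
    refine lt_of_lt_of_le hβ ?_
    rw [← WithZero.exp_zero, WithZero.exp_le_exp]
    omega
  have h2 : v.valuation F (algebraMap (𝓞 F) F β) = 1 := by
    have := (v.valuation F).map_add_eq_of_lt_left h1
    rwa [add_sub_cancel, hb] at this
  have h3 : β ∉ v.asIdeal := by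
    rw [v.valuation_of_algebraMap, v.intValuation_eq_one_iff_mem_primeCompl] at h2
    exact h2
  have : v.asIdeal.IsMaximal := v.isMaximal
  have h4 : IsUnit (Ideal.Quotient.mk (v.asIdeal ^ (2 * e + 1)) β) :=
    Ideal.Quotient.isUnit_mk_pow_of_notMem v.asIdeal h3
  exact ⟨β, h4.unit, hβ.le, h2, h4.unit_spec⟩

/-- two units which are equal modulo `p`-th powers modulo `v^(2e+1)` are equal modulo local `p`-th powers -/
theorem pow_of_quot (p : ℕ) [Fact p.Prime] (hBAS : S_BAS) (v : HeightOneSpectrum (𝓞 F)) (e : ℕ)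
    (he : v.valuation F (p : F) = WithZero.exp (-(e : ℤ))) (b b' : F) (hb' : v.valuation F b' = 1)
    (β β' : 𝓞 F) (u u' : (𝓞 F ⧸ v.asIdeal ^ (2 * e + 1))ˣ)
    (h : v.valuation F (algebraMap (𝓞 F) F β - b) ≤ WithZero.exp (-((2 * e + 1 : ℕ) : ℤ)))
    (h' : v.valuation F (algebraMap (𝓞 F) F β' - b') ≤ WithZero.exp (-((2 * e + 1 : ℕ) : ℤ)))
    (hu : (u : 𝓞 F ⧸ v.asIdeal ^ (2 * e + 1)) = Ideal.Quotient.mk _ β)
    (hu' : (u' : 𝓞 F ⧸ v.asIdeal ^ (2 * e + 1)) = Ideal.Quotient.mk _ β')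
    (w : (𝓞 F ⧸ v.asIdeal ^ (2 * e + 1))ˣ) (hw : u⁻¹ * u' = w ^ p) : Lpw p v (b / b') := by
  obtain ⟨η, hη⟩ := Ideal.Quotient.mk_surjective (w : 𝓞 F ⧸ v.asIdeal ^ (2 * e + 1))
  have h2 : u' = u * w ^ p := by rw [← hw, mul_inv_cancel_left]
  have h3 : β * η ^ p - β' ∈ v.asIdeal ^ (2 * e + 1) := by
    rw [← Ideal.Quotient.eq_zero_iff_mem, map_sub, map_mul, map_pow, hη, ← hu, ← hu',
      ← Units.val_pow_eq_pow_val, ← Units.val_mul, ← h2, sub_self]
  rw [← v.intValuation_le_pow_iff_mem, ← v.valuation_of_algebraMap (K := F)] at h3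
  have hη1 : v.valuation F (algebraMap (𝓞 F) F η) ≤ 1 := v.valuation_le_one η
  apply (hBAS p F v).2.2.2.2.2.1 (b / b') (algebraMap (𝓞 F) F η)
  have hb'0 : b' ≠ 0 := by
    rintro rfl
    rw [map_zero] at hb'
    exact zero_ne_one hb'
  have h7 : v.valuation F (b / b' * (algebraMap (𝓞 F) F η) ^ p - 1) =
      v.valuation F (b * (algebraMap (𝓞 F) F η) ^ p - b') := by
    have : b / b' * (algebraMap (𝓞 F) F η) ^ p - 1 =
        (b * (algebraMap (𝓞 F) F η) ^ p - b') / b' := by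
      field_simp
    rw [this, map_div₀, hb', div_one]
  rw [h7]
  have h8 : v.valuation F (b * (algebraMap (𝓞 F) F η) ^ p - b') ≤
      WithZero.exp (-((2 * e + 1 : ℕ) : ℤ)) := by
    have h9 : b * (algebraMap (𝓞 F) F η) ^ p - b' =
        (algebraMap (𝓞 F) F (β * η ^ p - β') -
          (algebraMap (𝓞 F) F β - b) * (algebraMap (𝓞 F) F η) ^ p) -
          -(algebraMap (𝓞 F) F β' - b') := by
      rw [map_sub, map_mul, map_pow]
      ring
    rw [h9]
    refine ((v.valuation F).map_sub_le ?_ ?_)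
    · refine ((v.valuation F).map_sub_le h3 ?_)
      rw [map_mul, map_pow]
      exact (mul_le_mul' h (pow_le_one' hη1 p)).trans_eq (mul_one _)
    · rw [Valuation.map_neg]
      exact h'
  refine lt_of_le_of_lt h8 ?_
  have h10 : v.valuation F ((p : F) ^ 2) = WithZero.exp (-(2 * e : ℕ) : ℤ) := by
    rw [map_pow, he, sq, ← WithZero.exp_add]
    congr 1
    push_cast
    ring
  rw [h10, WithZero.exp_lt_exp]
  omega

theorem loc_one (p : ℕ) [Fact p.Prime] (hBAS : S_BAS) (ζ : F) (hζ : IsPrimitiveRoot ζ p)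
    (v : HeightOneSpectrum (𝓞 F)) (e : ℕ)
    (he : v.valuation F (p : F) = WithZero.exp (-(e : ℤ))) (B : Finset F) (h0 : ∀ b ∈ B, b ≠ 0)
    (hB : ∀ b ∈ B, ∀ b' ∈ B, b ≠ b' → ¬ Lpw p v (b / b')) :
    B.card ≤ p ^ 2 * Ideal.absNorm v.asIdeal ^ e := by
  classical
  have hp : p.Prime := Fact.out
  have hf := fin_quot v (2 * e + 1)
  obtain ⟨ϖ, hϖ⟩ := v.valuation_exists_uniformizer F
  have hϖ0 : ϖ ≠ 0 := by
    rintro rfl
    rw [map_zero] at hϖ
    exact WithZero.exp_ne_zero hϖ.symm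
  have key : ∀ b : F, b ≠ 0 → ∃ (r : Fin p) (j : ℤ) (β : 𝓞 F) (u : (𝓞 F ⧸ v.asIdeal ^ (2 * e + 1))ˣ),
      v.valuation F (b * ϖ ^ (r : ℕ) * (ϖ ^ j) ^ p) = 1 ∧
      v.valuation F (algebraMap (𝓞 F) F β - (b * ϖ ^ (r : ℕ) * (ϖ ^ j) ^ p)) ≤
        WithZero.exp (-((2 * e + 1 : ℕ) : ℤ)) ∧
      v.valuation F (algebraMap (𝓞 F) F β) = 1 ∧
      (u : 𝓞 F ⧸ v.asIdeal ^ (2 * e + 1)) = Ideal.Quotient.mk _ β := by
    intro b hb
    have hv : v.valuation F b ≠ 0 := (Valuation.ne_zero_iff _).mpr hb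
    obtain ⟨k, hk⟩ : ∃ k : ℤ, v.valuation F b = WithZero.exp k :=
      ⟨WithZero.log (v.valuation F b), (WithZero.exp_log hv).symm⟩
    obtain ⟨j, r, hr⟩ : ∃ (j : ℤ) (r : Fin p), k = p * j + (r : ℕ) := by
      have h1 : (0 : ℤ) < p := by exact_mod_cast hp.pos
      have h2 := Int.emod_nonneg k h1.ne'
      have h3 := Int.emod_lt_of_pos k h1
      refine ⟨k / p, ⟨(k % p).toNat, by omega⟩, ?_⟩
      show k = p * (k / p) + ((k % p).toNat : ℤ)
      rw [Int.toNat_of_nonneg h2]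
      exact (Int.mul_ediv_add_emod k p).symm
    have h1 : v.valuation F (b * ϖ ^ (r : ℕ) * (ϖ ^ j) ^ p) = 1 := by
      rw [map_mul, map_mul, map_pow, map_pow, map_zpow₀, hk, hϖ, ← WithZero.exp_zsmul,
        ← WithZero.exp_nsmul, ← WithZero.exp_nsmul, ← WithZero.exp_add, ← WithZero.exp_add,
        ← WithZero.exp_zero]
      congr 1
      simp only [smul_eq_mul, nsmul_eq_mul]
      rw [hr]
      ring
    obtain ⟨β, u, h2, h3, h4⟩ := exists_unit v e _ h1
    exact ⟨r, j, β, u, h1, h2, h3, h4⟩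
  choose! P J Be U h1 h2 h3 h4 using key
  let g : F → Fin p × ((𝓞 F ⧸ v.asIdeal ^ (2 * e + 1))ˣ ⧸
      (powMonoidHom p : (𝓞 F ⧸ v.asIdeal ^ (2 * e + 1))ˣ →* _).range) := fun b => (P b, (U b : _ ⧸ _))
  have hinj : Set.InjOn g B := by
    intro b hb b' hb' hg
    by_contra hne
    apply hB b hb b' hb' hne
    simp only [g, Prod.mk.injEq] at hg
    obtain ⟨hr, hu⟩ := hg
    rw [QuotientGroup.eq, MonoidHom.mem_range] at hu
    obtain ⟨w, hw⟩ := hu
    rw [powMonoidHom_apply] at hw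
    have hs := pow_of_quot p hBAS v e he _ _ (h1 b' (h0 b' hb')) _ _ _ _
      (h2 b (h0 b hb)) (h2 b' (h0 b' hb'))
      (h4 b (h0 b hb)) (h4 b' (h0 b' hb')) w hw.symm
    intro n
    obtain ⟨x, hx⟩ := hs n
    refine ⟨ϖ ^ J b * (ϖ ^ J b')⁻¹ * x, ?_⟩
    have hb'0 := h0 b' hb'
    have hz : ϖ ^ (P b' : ℕ) ≠ 0 := pow_ne_zero _ hϖ0
    have hz' : ϖ ^ J b' ≠ 0 := zpow_ne_zero _ hϖ0
    have e1 : b / b' * (ϖ ^ J b * (ϖ ^ J b')⁻¹ * x) ^ p =
        b * ϖ ^ (P b : ℕ) * (ϖ ^ J b) ^ p / (b' * ϖ ^ (P b' : ℕ) * (ϖ ^ J b') ^ p) * x ^ p := by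
      rw [hr, mul_pow, mul_pow, inv_pow]
      field_simp
    rw [e1]
    exact hx
  have hc : Nat.card (Fin p × ((𝓞 F ⧸ v.asIdeal ^ (2 * e + 1))ˣ ⧸
      (powMonoidHom p : (𝓞 F ⧸ v.asIdeal ^ (2 * e + 1))ˣ →* _).range)) ≤
        p ^ 2 * Ideal.absNorm v.asIdeal ^ e := by
    rw [Nat.card_prod, card_quot_pow, Nat.card_eq_fintype_card (α := Fin p), Fintype.card_fin, sq,
      mul_assoc]
    exact Nat.mul_le_mul_left _ (ker_card p hp.pos ζ hζ v e he)
  have hfin : Finite (Fin p × ((𝓞 F ⧸ v.asIdeal ^ (2 * e + 1))ˣ ⧸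
      (powMonoidHom p : (𝓞 F ⧸ v.asIdeal ^ (2 * e + 1))ˣ →* _).range)) := inferInstance
  have hF := Fintype.ofFinite (Fin p × ((𝓞 F ⧸ v.asIdeal ^ (2 * e + 1))ˣ ⧸
      (powMonoidHom p : (𝓞 F ⧸ v.asIdeal ^ (2 * e + 1))ˣ →* _).range))
  calc B.card = (B.image g).card := (Finset.card_image_of_injOn hinj).symm
    _ ≤ Nat.card (Fin p × ((𝓞 F ⧸ v.asIdeal ^ (2 * e + 1))ˣ ⧸
      (powMonoidHom p : (𝓞 F ⧸ v.asIdeal ^ (2 * e + 1))ˣ →* _).range)) := by
        rw [Nat.card_eq_fintype_card]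
        exact Finset.card_le_univ _
    _ ≤ _ := hc

omit [NumberField F] in
theorem lies (p : ℕ) [hp : Fact p.Prime] (v : HeightOneSpectrum (𝓞 F)) (h : Dp p v) :
    v.asIdeal.LiesOver (Ideal.span {(p : ℤ)}) := by
  have hmax : (Ideal.span {(p : ℤ)}).IsMaximal :=
    PrincipalIdealRing.isMaximal_of_irreducible
      (Nat.prime_iff_prime_int.1 hp.out).irreducible
  refine ⟨?_⟩
  refine hmax.eq_of_le ?_ ?_
  · have := v.isPrime
    exact Ideal.IsPrime.ne_top inferInstance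
  · rw [Ideal.span_singleton_le_iff_mem, Ideal.mem_comap]
    simpa [Dp] using h

theorem ord_above (p : ℕ) [hp : Fact p.Prime] (v : HeightOneSpectrum (𝓞 F)) (h : Dp p v) :
    v.valuation F (p : F) = WithZero.exp (-((v.asIdeal.ramificationIdx ℤ : ℕ) : ℤ)) := by
  have hl := lies p v h
  have hpr : Prime (p : ℤ) := Nat.prime_iff_prime_int.1 hp.out
  let P0 : HeightOneSpectrum ℤ :=
    ⟨Ideal.span {(p : ℤ)}, (Ideal.span_singleton_prime hpr.ne_zero).2 hpr, by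
      rw [Ne, Ideal.span_singleton_eq_bot]
      exact hpr.ne_zero⟩
  have hl' : v.asIdeal.LiesOver P0.asIdeal := hl
  have h1 : P0.intValuation (p : ℤ) = WithZero.exp (-1 : ℤ) :=
    P0.intValuation_singleton hpr.ne_zero rfl
  have h2 := HeightOneSpectrum.intValuation_liesOver P0 v (p : ℤ)
  rw [h1] at h2
  have h3 : P0.asIdeal.ramificationIdx' v.asIdeal = v.asIdeal.ramificationIdx ℤ := by
    have := v.isPrime
    exact Ideal.ramificationIdx'_eq_ramificationIdx P0.asIdeal v.asIdeal P0.ne_bot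
  rw [h3] at h2
  have h4 : v.valuation F (p : F) = v.intValuation (algebraMap ℤ (𝓞 F) (p : ℤ)) := by
    rw [← v.valuation_of_algebraMap (K := F)]
    simp
  rw [h4, ← h2, ← WithZero.exp_nsmul]
  congr 1
  simp

end Loc

theorem locv (hBAS : S_BAS) : S_LOCV := by
  intro p _ _ F _ _ ζ hζ v B h0 hB
  have hp : p.Prime := Fact.out
  by_cases hv : Dp p v
  · have h1 := loc_one p hBAS ζ hζ v _ (ord_above p v hv) B h0 hB
    have h2 : dv p v = v.asIdeal.ramificationIdx ℤ * v.asIdeal.inertiaDeg ℤ := by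
      unfold dv
      rw [if_pos hv]
    have hl := lies p v hv
    have h3 : Ideal.absNorm v.asIdeal = p ^ v.asIdeal.inertiaDeg ℤ := by
      have := v.isPrime
      exact (Ideal.pow_inertiaDeg p v.asIdeal).symm
    rw [h3, ← pow_mul, ← pow_add] at h1
    rw [h2, mul_comm (v.asIdeal.ramificationIdx ℤ)]
    exact h1
  · have h2 : dv p v = 0 := by
      unfold dv
      rw [if_neg hv]
    have h3 : v.valuation F (p : F) = WithZero.exp (-((0 : ℕ) : ℤ)) := by
      have h4 : v.intValuation (p : 𝓞 F) = 1 := by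
        rw [v.intValuation_eq_one_iff_mem_primeCompl]
        exact hv
      have h5 : v.valuation F (p : F) = v.intValuation (p : 𝓞 F) := by
        rw [← v.valuation_of_algebraMap (K := F)]
        simp
      rw [h5, h4]
      simp
    have h1 := loc_one p hBAS ζ hζ v 0 h3 B h0 hB
    rw [pow_zero, mul_one] at h1
    rw [h2]
    exact h1

end Pool.Agent.Q65.LK

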