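import Pool.Agent.Q7.LK.Stm

/-!
# Job LK-HS1 (helper65, for project LK of helper7), part 1: approximation
-/

set_option autoImplicit false

namespace Pool.Agent.Q65.LK

open NumberField IsDedekindDomain

section Apx

variable {F : Type} [Field F] [NumberField F]

theorem val_exp (v : HeightOneSpectrum (𝓞 F)) (x : F) (hx : x ≠ 0) :
    ∃ k : ℤ, v.valuation F x = WithZero.exp k :=
  ⟨WithZero.log (v.valuation F x), (WithZero.exp_log ((Valuation.ne_zero_iff _).mpr hx)).symm⟩

/-- approximation at finitely many primes -/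
theorem approxA (T : Finset (HeightOneSpectrum (𝓞 F))) (a : HeightOneSpectrum (𝓞 F) → F) (n : ℕ) :
    ∃ y : F, ∀ v ∈ T, v.valuation F (y - a v) ≤ WithZero.exp (-(n : ℤ)) := by
  classical
  obtain ⟨b, hb⟩ := IsLocalization.exist_integer_multiples (nonZeroDivisors (𝓞 F)) T a
  obtain ⟨D, hD⟩ : ∃ D : 𝓞 F, D = (b : 𝓞 F) := ⟨_, rfl⟩
  have hD1 : D ≠ 0 := by
    rw [hD]
    exact nonZeroDivisors.ne_zero b.2
  have hD0 : algebraMap (𝓞 F) F D ≠ 0 := by
    rw [Ne, map_eq_zero_iff _ (FaithfulSMul.algebraMap_injective (𝓞 F) F)]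
    exact hD1
  have hw : ∀ v : HeightOneSpectrum (𝓞 F), ∃ w : 𝓞 F, v ∈ T →
      algebraMap (𝓞 F) F w = algebraMap (𝓞 F) F D * a v := by
    intro v
    by_cases hv : v ∈ T
    · obtain ⟨w, hw⟩ := hb v hv
      refine ⟨w, fun _ => ?_⟩
      rw [hw, Algebra.smul_def, hD]
    · exact ⟨0, fun h => absurd h hv⟩
  choose w hw using hw
  have hj : ∀ v : HeightOneSpectrum (𝓞 F), ∃ j : ℕ, v.intValuation D = WithZero.exp (-(j : ℤ)) :=
    fun v => ⟨_, v.intValuation_eq_exp_neg_multiplicity hD1⟩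
  choose j hj using hj
  obtain ⟨u, hu⟩ := IsDedekindDomain.exists_forall_sub_mem_ideal (s := T)
    (fun v : HeightOneSpectrum (𝓞 F) => v.asIdeal) (fun v => n + j v)
    (fun v _ => v.prime) (fun v _ v' _ hvv' h => hvv' (HeightOneSpectrum.ext h))
    (fun v => w v)
  refine ⟨algebraMap (𝓞 F) F u / algebraMap (𝓞 F) F D, fun v hv => ?_⟩
  have h1 : v.intValuation (u - w v) ≤ WithZero.exp (-((n + j v : ℕ) : ℤ)) :=
    (v.intValuation_le_pow_iff_mem _ _).2 (hu v hv)
  have h2 : algebraMap (𝓞 F) F u / algebraMap (𝓞 F) F D - a v =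
      algebraMap (𝓞 F) F (u - w v) / algebraMap (𝓞 F) F D := by
    rw [map_sub, hw v hv]
    field_simp
  rw [h2, map_div₀, v.valuation_of_algebraMap, v.valuation_of_algebraMap, hj v]
  have h3 : WithZero.exp (-(n : ℤ)) =
      WithZero.exp (-((n + j v : ℕ) : ℤ)) / WithZero.exp (-(j v : ℤ)) := by
    rw [← WithZero.exp_sub]
    congr 1
    push_cast
    ring
  rw [h3]
  exact div_le_div_of_nonneg_right h1 zero_le

/-- approximation of `a` at `v` and of `1` at the other places of a finite set -/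
theorem exists_apx (R : Set (HeightOneSpectrum (𝓞 F))) (hR : R.Finite)
    (v : HeightOneSpectrum (𝓞 F)) (hv : v ∈ R) (a : F) (ha : a ≠ 0) (k : ℕ) :
    ∃ e : F, e ≠ 0 ∧ v.valuation F (e / a - 1) < WithZero.exp (-(k : ℤ)) ∧
      ∀ w ∈ R, w ≠ v → w.valuation F (e - 1) < WithZero.exp (-(k : ℤ)) := by
  classical
  obtain ⟨m, hm⟩ := val_exp v a ha
  obtain ⟨e, he⟩ := approxA hR.toFinset (fun w => if w = v then a else 1) (k + 1 + m.natAbs)
  have h1 : v.valuation F (e / a - 1) < WithZero.exp (-(k : ℤ)) := by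
    have h2 := he v (hR.mem_toFinset.2 hv)
    rw [if_pos rfl] at h2
    have h3 : e / a - 1 = (e - a) / a := by field_simp
    rw [h3, map_div₀, hm]
    have h4 : v.valuation F (e - a) / WithZero.exp m ≤
        WithZero.exp (-((k + 1 + m.natAbs : ℕ) : ℤ)) / WithZero.exp m :=
      div_le_div_of_nonneg_right h2 zero_le
    refine lt_of_le_of_lt h4 ?_
    rw [← WithZero.exp_sub, WithZero.exp_lt_exp]
    push_cast
    have := neg_abs_le m
    omega
  refine ⟨e, ?_, h1, ?_⟩
  · rintro rfl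
    rw [zero_div, zero_sub, Valuation.map_neg, map_one, ← WithZero.exp_zero,
      WithZero.exp_lt_exp] at h1
    omega
  · intro w hw hwv
    have h2 := he w (hR.mem_toFinset.2 hw)
    rw [if_neg hwv] at h2
    refine lt_of_le_of_lt h2 ?_
    rw [WithZero.exp_lt_exp]
    push_cast
    have := abs_nonneg m
    omega

/-- continuity of a polynomial at finitely many primes -/
theorem poly_near (Q : Polynomial F) (R : Finset (HeightOneSpectrum (𝓞 F))) :
    ∃ M : ℕ, ∀ w ∈ R, ∀ x y : F, w.valuation F x ≤ 1 → w.valuation F y ≤ 1 → ∀ n : ℕ,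
      w.valuation F (x - y) ≤ WithZero.exp (-(n : ℤ)) →
        w.valuation F (Q.eval x - Q.eval y) ≤ WithZero.exp ((M : ℤ) - n) := by
  classical
  have h1 : ∀ (w : HeightOneSpectrum (𝓞 F)) (i : ℕ), ∃ m : ℕ,
      w.valuation F (Q.coeff i) ≤ WithZero.exp (m : ℤ) := by
    intro w i
    by_cases h0 : Q.coeff i = 0
    · exact ⟨0, by rw [h0, map_zero]; exact zero_le⟩
    · obtain ⟨k, hk⟩ := val_exp w _ h0
      refine ⟨k.natAbs, ?_⟩
      rw [hk, WithZero.exp_le_exp]
      exact Int.le_natAbs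
  choose m hm using h1
  refine ⟨∑ w ∈ R, ∑ i ∈ Finset.range (Q.natDegree + 1), m w i, ?_⟩
  intro w hw x y hx hy n hn
  rw [Polynomial.eval_eq_sum_range, Polynomial.eval_eq_sum_range, ← Finset.sum_sub_distrib]
  refine Valuation.map_sum_le _ fun i hi => ?_
  have h2 : Q.coeff i * x ^ i - Q.coeff i * y ^ i =
      Q.coeff i * ((x - y) * ∑ k ∈ Finset.range i, x ^ k * y ^ (i - 1 - k)) := by
    rw [mul_comm (x - y), geom_sum₂_mul]
    ring
  have h3 : w.valuation F (∑ k ∈ Finset.range i, x ^ k * y ^ (i - 1 - k)) ≤ 1 := by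
    refine Valuation.map_sum_le _ fun k _ => ?_
    rw [map_mul, map_pow, map_pow]
    exact mul_le_one' (pow_le_one' hx _) (pow_le_one' hy _)
  have h4 : m w i ≤ ∑ w ∈ R, ∑ i ∈ Finset.range (Q.natDegree + 1), m w i :=
    (Finset.single_le_sum (f := fun i => m w i) (fun _ _ => Nat.zero_le _) hi).trans
      (Finset.single_le_sum (f := fun w => ∑ i ∈ Finset.range (Q.natDegree + 1), m w i)
        (fun _ _ => Nat.zero_le _) hw)
  rw [h2, map_mul, map_mul]
  calc w.valuation F (Q.coeff i) * (w.valuation F (x - y) *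
        w.valuation F (∑ k ∈ Finset.range i, x ^ k * y ^ (i - 1 - k)))
      ≤ WithZero.exp (m w i : ℤ) * (WithZero.exp (-(n : ℤ)) * 1) :=
        mul_le_mul' (hm w i) (mul_le_mul' hn h3)
    _ = WithZero.exp ((m w i : ℤ) - n) := by
        rw [mul_one, ← WithZero.exp_add, sub_eq_add_neg]
    _ ≤ _ := by
        rw [WithZero.exp_le_exp]
        have : (m w i : ℤ) ≤ ((∑ w ∈ R, ∑ i ∈ Finset.range (Q.natDegree + 1), m w i : ℕ) : ℤ) := by
          exact_mod_cast h4
        omega

/-- the norm of `1 + x t` is a polynomial in `x` -/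
theorem norm_poly (M : Type) [Field M] [Algebra F M] [Module.Finite F M] (t : M) :
    ∃ Q : Polynomial F, ∀ x : F, Algebra.norm F (1 + algebraMap F M x * t) = Q.eval x := by
  classical
  let b := Module.finBasis F M
  let A := Algebra.leftMulMatrix b t
  refine ⟨(1 + (Polynomial.X : Polynomial F) • A.map Polynomial.C).det, fun x => ?_⟩
  have h1 : Polynomial.eval x (1 + (Polynomial.X : Polynomial F) • A.map Polynomial.C).det =
      ((Polynomial.evalRingHom x).mapMatrix
        (1 + (Polynomial.X : Polynomial F) • A.map Polynomial.C)).det := by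
    rw [← RingHom.map_det]
    rfl
  have h2 : (Polynomial.evalRingHom x).mapMatrix
      (1 + (Polynomial.X : Polynomial F) • A.map Polynomial.C) = 1 + x • A := by
    rw [map_add, map_one]
    congr 1
    ext i j
    simp
    exact mul_comm _ _
  have h3 : Algebra.leftMulMatrix b (1 + algebraMap F M x * t) = 1 + x • A := by
    rw [← Algebra.smul_def, map_add, map_one, map_smul]
  rw [Algebra.norm_eq_matrix_det b, h3, h1, h2]

/-- approximation of norms by norms -/
theorem norm_apx (M : Type) [Field M] [Algebra F M] [Module.Finite F M]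
    (R : Set (HeightOneSpectrum (𝓞 F))) (hR : R.Finite)
    (v : HeightOneSpectrum (𝓞 F)) (hv : v ∈ R) (y : M) (hy : y ≠ 0) (k : ℕ) :
    ∃ z : M, z ≠ 0 ∧ Algebra.norm F z ≠ 0 ∧
      v.valuation F (Algebra.norm F z / Algebra.norm F y - 1) < WithZero.exp (-(k : ℤ)) ∧
      ∀ w ∈ R, w ≠ v → w.valuation F (Algebra.norm F z - 1) < WithZero.exp (-(k : ℤ)) := by
  classical
  obtain ⟨Q, hQ⟩ := norm_poly (F := F) M (y - 1)
  obtain ⟨L, hL⟩ := poly_near Q hR.toFinset
  have hN : Algebra.norm F y ≠ 0 := (Algebra.norm_ne_zero_iff (R := F) (S := M)).2 hy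
  obtain ⟨m, hm⟩ := val_exp v _ hN
  obtain ⟨x, hx⟩ := approxA hR.toFinset (fun w => if w = v then 1 else 0) (L + k + 1 + m.natAbs)
  have hQ0 : Q.eval 0 = 1 := by
    rw [← hQ, map_zero, zero_mul, add_zero, map_one]
  have hQ1 : Q.eval 1 = Algebra.norm F y := by
    rw [← hQ, map_one, one_mul]
    congr 1
    ring
  have hsmall : (WithZero.exp (-((L + k + 1 + m.natAbs : ℕ) : ℤ)) : WithZero (Multiplicative ℤ)) ≤
      1 := by
    rw [← WithZero.exp_zero, WithZero.exp_le_exp]
    omega
  have hv1 : v.valuation F (Algebra.norm F (1 + algebraMap F M x * (y - 1)) / Algebra.norm F y - 1) <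
      WithZero.exp (-(k : ℤ)) := by
    have h1 := hx v (hR.mem_toFinset.2 hv)
    rw [if_pos rfl] at h1
    have hx1 : v.valuation F x ≤ 1 := by
      have h2 : x = (x - 1) + 1 := by ring
      rw [h2]
      refine (v.valuation F).map_add_le (h1.trans hsmall) ?_
      rw [map_one]
    have h2 := hL v (hR.mem_toFinset.2 hv) x 1 hx1 (by rw [map_one]) _ h1
    rw [hQ1, ← hQ] at h2
    have h3 : Algebra.norm F (1 + algebraMap F M x * (y - 1)) / Algebra.norm F y - 1 =
        (Algebra.norm F (1 + algebraMap F M x * (y - 1)) - Algebra.norm F y) /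
          Algebra.norm F y := by field_simp
    rw [h3, map_div₀, hm]
    refine lt_of_le_of_lt (div_le_div_of_nonneg_right h2 zero_le) ?_
    rw [← WithZero.exp_sub, WithZero.exp_lt_exp]
    push_cast
    have := neg_abs_le m
    omega
  have hne : Algebra.norm F (1 + algebraMap F M x * (y - 1)) ≠ 0 := by
    intro h0
    rw [h0, zero_div, zero_sub, Valuation.map_neg, map_one, ← WithZero.exp_zero,
      WithZero.exp_lt_exp] at hv1
    omega
  refine ⟨1 + algebraMap F M x * (y - 1), (Algebra.norm_ne_zero_iff (R := F) (S := M)).1 hne, hne,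
    hv1, ?_⟩
  · intro w hw hwv
    have h1 := hx w (hR.mem_toFinset.2 hw)
    rw [if_neg hwv] at h1
    have hx1 : w.valuation F x ≤ 1 := by
      rw [sub_zero] at h1
      exact h1.trans hsmall
    have h2 := hL w (hR.mem_toFinset.2 hw) x 0 hx1 (by rw [map_zero]; exact zero_le) _ h1
    rw [hQ0, ← hQ] at h2
    refine lt_of_le_of_lt h2 ?_
    rw [WithZero.exp_lt_exp]
    push_cast
    have := abs_nonneg m
    omega

end Apx

end Pool.Agent.Q65.LK
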