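import Pool.Agent.Q65.LK.Apx

/-!
# Job LK-HS1 (helper65, for project LK of helper7): the local symbols
-/

set_option autoImplicit false

namespace Pool.Agent.Q65.LK

open NumberField IsDedekindDomain Pool.Agent.Q7.LK Function

section Sym

variable {F : Type} [Field F] [NumberField F]

theorem fin_vl (p : ℕ) (a : F) (ha : a ≠ 0) : {v : HeightOneSpectrum (𝓞 F) | vl p v a ≠ 0}.Finite := by
  refine ((HeightOneSpectrum.Support.finite (𝓞 F) a).union
    (HeightOneSpectrum.Support.finite (𝓞 F) a⁻¹)).subset ?_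
  intro v hv
  by_contra hcon
  apply hv
  have h1 : ¬ (1 < v.valuation F a) := fun h => hcon (Or.inl h)
  have h2 : ¬ (1 < v.valuation F a⁻¹) := fun h => hcon (Or.inr h)
  have h3 : v.valuation F a = 1 := by
    refine le_antisymm (not_lt.1 h1) ?_
    rw [map_inv₀] at h2
    have h4 : v.valuation F a ≠ 0 := (Valuation.ne_zero_iff _).mpr ha
    have h5 : 0 < v.valuation F a := zero_lt_iff.2 h4
    by_contra h6
    exact h2 ((one_lt_inv₀ h5).2 (not_le.1 h6))
  unfold vl
  rw [h3]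
  simp

open Classical in
/-- the sum of the tame symbols outside `R` -/
noncomputable def gg (p : ℕ) (ζ c : F) (v : HeightOneSpectrum (𝓞 F)) (e : F) : ZMod p :=
  if Dp p v ∨ vl p v c ≠ 0 then 0 else vl p v e * sy p ζ v c

noncomputable def ph (p : ℕ) (ζ c e : F) : ZMod p := ∑ᶠ v : HeightOneSpectrum (𝓞 F), gg p ζ c v e

theorem ph_eq (p : ℕ) (ζ c e : F) :
    ∑ᶠ v : {v : HeightOneSpectrum (𝓞 F) // ¬ (Dp p v ∨ vl p v c ≠ 0)}, vl p v.1 e * sy p ζ v.1 c =
      ph p ζ c e := by
  classical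
  rw [finsum_subtype_eq_finsum_cond
    (f := fun v : HeightOneSpectrum (𝓞 F) => vl p v e * sy p ζ v c)
    (fun v : HeightOneSpectrum (𝓞 F) => ¬ (Dp p v ∨ vl p v c ≠ 0))]
  unfold ph
  refine finsum_congr fun v => ?_
  rw [finsum_eq_if]
  unfold gg
  by_cases h : Dp p v ∨ vl p v c ≠ 0
  · rw [if_neg (not_not.2 h), if_pos h]
  · rw [if_pos h, if_neg h]

theorem gg_fin (p : ℕ) (ζ c e : F) (he : e ≠ 0) :
    (support fun v : HeightOneSpectrum (𝓞 F) => gg p ζ c v e).Finite := by
  classical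
  refine (fin_vl p e he).subset ?_
  intro v hv h0
  apply hv
  show gg p ζ c v e = 0
  unfold gg
  rw [h0]
  simp

theorem gg_mul (p : ℕ) [Fact p.Prime] (hB : S_BAS) (ζ c : F) (v : HeightOneSpectrum (𝓞 F)) (a b : F)
    (ha : a ≠ 0) (hb : b ≠ 0) : gg p ζ c v (a * b) = gg p ζ c v a + gg p ζ c v b := by
  unfold gg
  rw [(hB p F v).2.2.2.2.1 a b ha hb]
  split_ifs <;> ring

theorem ph_mul (p : ℕ) [Fact p.Prime] (hB : S_BAS) (ζ c a b : F) (ha : a ≠ 0) (hb : b ≠ 0) :
    ph p ζ c (a * b) = ph p ζ c a + ph p ζ c b := by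
  unfold ph
  rw [← finsum_add_distrib (gg_fin p ζ c a ha) (gg_fin p ζ c b hb)]
  exact finsum_congr fun v => gg_mul p hB ζ c v a b ha hb

theorem ph_one (p : ℕ) [Fact p.Prime] (hB : S_BAS) (ζ c : F) : ph p ζ c 1 = 0 := by
  have h := ph_mul p hB ζ c 1 1 one_ne_zero one_ne_zero
  rw [mul_one] at h
  exact left_eq_add.1 h

theorem ph_prod (p : ℕ) [Fact p.Prime] (hB : S_BAS) (ζ c : F) {ι : Type} (s : Finset ι) (f : ι → F)
    (hf : ∀ i ∈ s, f i ≠ 0) : ph p ζ c (∏ i ∈ s, f i) = ∑ i ∈ s, ph p ζ c (f i) := by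
  classical
  induction s using Finset.induction_on with
  | empty => rw [Finset.prod_empty, Finset.sum_empty, ph_one p hB]
  | insert i s hi ih =>
    rw [Finset.prod_insert hi, Finset.sum_insert hi, ph_mul p hB ζ c _ _
      (hf i (Finset.mem_insert_self _ _))
      (Finset.prod_ne_zero_iff.2 fun j hj => hf j (Finset.mem_insert_of_mem hj)),
      ih fun j hj => hf j (Finset.mem_insert_of_mem hj)]

/-- close to `1` -/
def Cl (k : ℕ) (v : HeightOneSpectrum (𝓞 F)) (x : F) : Prop :=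
  v.valuation F (x - 1) < WithZero.exp (-(k : ℤ))

theorem Cl.val {k : ℕ} {v : HeightOneSpectrum (𝓞 F)} {x : F} (h : Cl k v x) :
    v.valuation F x = 1 := by
  have h1 : v.valuation F (x - 1) < v.valuation F (1 : F) := by
    rw [map_one]
    refine lt_of_lt_of_le h ?_
    rw [← WithZero.exp_zero, WithZero.exp_le_exp]
    omega
  have h2 := (v.valuation F).map_add_eq_of_lt_left h1
  rwa [add_sub_cancel, map_one] at h2

theorem Cl.one (k : ℕ) (v : HeightOneSpectrum (𝓞 F)) : Cl k v (1 : F) := by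
  unfold Cl
  rw [sub_self, map_zero]
  exact WithZero.exp_pos

theorem Cl.mul {k : ℕ} {v : HeightOneSpectrum (𝓞 F)} {x y : F} (hx : Cl k v x) (hy : Cl k v y) :
    Cl k v (x * y) := by
  unfold Cl
  have h1 : x * y - 1 = (x - 1) * y + (y - 1) := by ring
  rw [h1]
  refine (v.valuation F).map_add_lt ?_ hy
  rw [map_mul, hy.val, mul_one]
  exact hx

theorem Cl.inv {k : ℕ} {v : HeightOneSpectrum (𝓞 F)} {x : F} (hx : Cl k v x) :
    Cl k v x⁻¹ := by
  unfold Cl
  have h0 : x ≠ 0 := by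
    rintro rfl
    have := hx.val
    rw [map_zero] at this
    exact zero_ne_one this
  have h1 : x⁻¹ - 1 = -(x - 1) * x⁻¹ := by
    field_simp
    ring
  rw [h1, map_mul, Valuation.map_neg, map_inv₀, hx.val, inv_one, mul_one]
  exact hx

theorem Cl.prod {k : ℕ} {v : HeightOneSpectrum (𝓞 F)} {ι : Type} (s : Finset ι) (f : ι → F)
    (h : ∀ i ∈ s, Cl k v (f i)) : Cl k v (∏ i ∈ s, f i) := by
  classical
  induction s using Finset.induction_on with
  | empty => rw [Finset.prod_empty]; exact Cl.one k v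
  | insert i s hi ih =>
    rw [Finset.prod_insert hi]
    exact (h i (Finset.mem_insert_self _ _)).mul (ih fun j hj => h j (Finset.mem_insert_of_mem hj))

end Sym

theorem hs1 (hB : S_BAS) (hA : S_HS1A) (hN : S_HS1N) : S_HS1 := by
  classical
  intro p _ hp2 F _ _ ζ hζ c hc
  by_cases hpow : IsPow p c
  · -- the trivial case
    obtain ⟨x, rfl⟩ := hpow
    have hx : x ≠ 0 := by
      rintro rfl
      apply hc
      rw [zero_pow (Fact.out : p.Prime).ne_zero]
    refine ⟨fun _ _ => 0, fun _ _ _ _ _ => (add_zero 0).symm, fun a _ => ⟨?_, finsum_zero⟩,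
      fun _ _ _ => rfl, ?_, fun _ _ _ _ _ _ _ _ => rfl⟩
    · refine Set.finite_empty.subset fun v hv => ?_
      exact hv rfl
    · intro v hv h0 a _
      have h1 := ((hB p F v).2.2.2.2.2.2 hv ζ hζ).2.2.2 (x ^ p) hc h0
      rw [h1.2 ((hB p F v).2.2.1 x hx), mul_zero]
  obtain ⟨hR, k, hk⟩ := hA p hp2 F ζ hζ c hc hpow
  set R : Set (HeightOneSpectrum (𝓞 F)) := {v | Dp p v ∨ vl p v c ≠ 0} with hRdef
  have hk' : ∀ x : F, x ≠ 0 → (∀ v ∈ R, Cl k v x) → ph p ζ c x = 0 := by
    intro x hx h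
    rw [← ph_eq]
    exact (hk x hx fun v hv => h v hv).2
  -- the approximations
  have hapx : ∀ (v : HeightOneSpectrum (𝓞 F)) (a : F), ∃ e : F, v ∈ R → a ≠ 0 →
      e ≠ 0 ∧ Cl k v (e / a) ∧ ∀ w ∈ R, w ≠ v → Cl k w e := by
    intro v a
    by_cases h : v ∈ R ∧ a ≠ 0
    · obtain ⟨e, he⟩ := exists_apx R hR v h.1 a h.2 k
      exact ⟨e, fun _ _ => he⟩
    · exact ⟨0, fun h1 h2 => absurd ⟨h1, h2⟩ h⟩
  choose E hE using hapx
  let τ : HeightOneSpectrum (𝓞 F) → F → ZMod p := fun v a =>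
    if v ∈ R then - ph p ζ c (E v a) else vl p v a * sy p ζ v c
  have hτ1 : ∀ v, v ∈ R → ∀ a, τ v a = - ph p ζ c (E v a) := fun v hv a => if_pos hv
  have hτ2 : ∀ v, v ∉ R → ∀ a, τ v a = vl p v a * sy p ζ v c := fun v hv a => if_neg hv
  -- independence of the approximation
  have key : ∀ v ∈ R, ∀ a : F, a ≠ 0 → ∀ e : F, e ≠ 0 → Cl k v (e / a) →
      (∀ w ∈ R, w ≠ v → Cl k w e) → τ v a = - ph p ζ c e := by
    intro v hv a ha e he h1 h2
    rw [hτ1 v hv]
    obtain ⟨h3, h4, h5⟩ := hE v a hv ha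
    have h6 : ph p ζ c (E v a * e⁻¹) = 0 := by
      refine hk' _ (mul_ne_zero h3 (inv_ne_zero he)) fun w hw => ?_
      by_cases hwv : w = v
      · subst hwv
        have h7 : E w a * e⁻¹ = (E w a / a) * (e / a)⁻¹ := by field_simp
        rw [h7]
        exact h4.mul h1.inv
      · exact (h5 w hw hwv).mul (h2 w hw hwv).inv
    have h8 := ph_mul p hB ζ c (E v a * e⁻¹) e (mul_ne_zero h3 (inv_ne_zero he)) he
    rw [h6, zero_add] at h8
    have h9 : E v a * e⁻¹ * e = E v a := by field_simp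
    rw [h9] at h8
    rw [h8]
  have hmul : ∀ v a b, a ≠ 0 → b ≠ 0 → τ v (a * b) = τ v a + τ v b := by
    intro v a b ha hb
    by_cases hv : v ∈ R
    · obtain ⟨h3, h4, h5⟩ := hE v a hv ha
      obtain ⟨h6, h7, h8⟩ := hE v b hv hb
      rw [key v hv (a * b) (mul_ne_zero ha hb) (E v a * E v b) (mul_ne_zero h3 h6) ?_ ?_,
        ph_mul p hB ζ c _ _ h3 h6, hτ1 v hv, hτ1 v hv]
      · ring
      · have h9 : E v a * E v b / (a * b) = (E v a / a) * (E v b / b) := by field_simp
        rw [h9]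
        exact h4.mul h7
      · exact fun w hw hwv => (h5 w hw hwv).mul (h8 w hw hwv)
    · rw [hτ2 v hv, hτ2 v hv, hτ2 v hv, (hB p F v).2.2.2.2.1 a b ha hb]
      ring
  have hsum : ∀ a, a ≠ 0 → {v | τ v a ≠ 0}.Finite ∧ ∑ᶠ v, τ v a = 0 := by
    intro a ha
    have hfin : {v | τ v a ≠ 0}.Finite := by
      refine (hR.union (fin_vl p a ha)).subset fun v hv => ?_
      by_cases h : v ∈ R
      · exact Or.inl h
      · refine Or.inr fun h0 => hv ?_
        rw [hτ2 v h, h0, zero_mul]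
    refine ⟨hfin, ?_⟩
    have h1 : ∀ v, τ v a = (if v ∈ R then τ v a else 0) + gg p ζ c v a := by
      intro v
      unfold gg
      by_cases h : v ∈ R
      · have h' : Dp p v ∨ vl p v c ≠ 0 := h
        rw [if_pos h, if_pos h', add_zero]
      · have h' : ¬ (Dp p v ∨ vl p v c ≠ 0) := h
        rw [if_neg h, if_neg h', zero_add, hτ2 v h]
    have hs1 : (support fun v => if v ∈ R then τ v a else 0) ⊆ (hR.toFinset : Set _) := by
      intro v hv
      rw [Set.Finite.coe_toFinset]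
      by_contra h
      apply hv
      exact if_neg h
    rw [finsum_congr h1, finsum_add_distrib ((Finset.finite_toSet _).subset hs1) (gg_fin p ζ c a ha),
      finsum_eq_sum_of_support_subset _ hs1]
    have h2 : ∑ v ∈ hR.toFinset, (if v ∈ R then τ v a else 0) =
        - ph p ζ c (∏ v ∈ hR.toFinset, E v a) := by
      rw [ph_prod p hB ζ c _ _ fun v hv => (hE v a (hR.mem_toFinset.1 hv) ha).1,
        ← Finset.sum_neg_distrib]
      refine Finset.sum_congr rfl fun v hv => ?_
      rw [if_pos (hR.mem_toFinset.1 hv), hτ1 v (hR.mem_toFinset.1 hv)]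
    have h3 : ∏ v ∈ hR.toFinset, E v a ≠ 0 :=
      Finset.prod_ne_zero_iff.2 fun v hv => (hE v a (hR.mem_toFinset.1 hv) ha).1
    have h4 : ph p ζ c (a * (∏ v ∈ hR.toFinset, E v a)⁻¹) = 0 := by
      refine hk' _ (mul_ne_zero ha (inv_ne_zero h3)) fun w hw => ?_
      have hw' : w ∈ hR.toFinset := hR.mem_toFinset.2 hw
      have h5 : a * (∏ v ∈ hR.toFinset, E v a)⁻¹ =
          ((E w a / a) * ∏ v ∈ hR.toFinset.erase w, E v a)⁻¹ := by
        rw [← Finset.mul_prod_erase _ _ hw']
        field_simp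
      rw [h5]
      refine Cl.inv (((hE w a hw ha).2.1).mul (Cl.prod _ _ fun v hv => ?_))
      rw [Finset.mem_erase] at hv
      exact (hE v a (hR.mem_toFinset.1 hv.2) ha).2.2 w hw fun h => hv.1 h.symm
    have h6 := ph_mul p hB ζ c (a * (∏ v ∈ hR.toFinset, E v a)⁻¹) (∏ v ∈ hR.toFinset, E v a)
      (mul_ne_zero ha (inv_ne_zero h3)) h3
    have h7 : a * (∏ v ∈ hR.toFinset, E v a)⁻¹ * (∏ v ∈ hR.toFinset, E v a) = a := by
      field_simp
    rw [h7, h4, zero_add] at h6
    rw [h2]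
    show - ph p ζ c (∏ v ∈ hR.toFinset, E v a) + ph p ζ c a = 0
    rw [h6, neg_add_cancel]
  have hpw : ∀ v a, Lpw p v a → τ v a = 0 := by
    intro v a hva
    have ha : a ≠ 0 := ((hB p F v).1 a hva).1
    by_cases hv : v ∈ R
    · obtain ⟨x, hx⟩ := hva k
      have hx0 : x ≠ 0 := by
        rintro rfl
        rw [zero_pow (Fact.out : p.Prime).ne_zero, mul_zero, zero_sub, Valuation.map_neg, map_one,
          ← WithZero.exp_zero, WithZero.exp_lt_exp] at hx
        omega
      have hpowτ : ∀ n : ℕ, τ v (x ^ n) = n * τ v x := by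
        intro n
        induction n with
        | zero =>
          have h := hmul v 1 1 one_ne_zero one_ne_zero
          rw [mul_one] at h
          rw [pow_zero, Nat.cast_zero, zero_mul]
          exact left_eq_add.1 h
        | succ n ih =>
          rw [pow_succ, hmul v _ _ (pow_ne_zero _ hx0) hx0, ih]
          push_cast
          ring
      have hax : a * x ^ p ≠ 0 := mul_ne_zero ha (pow_ne_zero _ hx0)
      have h1 : τ v (a * x ^ p) = - ph p ζ c 1 := by
        refine key v hv _ hax 1 one_ne_zero ?_ fun w _ _ => Cl.one k w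
        rw [one_div]
        exact Cl.inv hx
      rw [ph_one p hB, neg_zero, hmul v _ _ ha (pow_ne_zero _ hx0), hpowτ p, CharP.cast_eq_zero,
        zero_mul, add_zero] at h1
      exact h1
    · rw [hτ2 v hv, ((hB p F v).1 a hva).2, zero_mul]
  refine ⟨τ, hmul, hsum, hpw, ?_, ?_⟩
  · intro v hv h0 a _
    refine hτ2 v ?_ a
    rintro (h | h)
    · exact hv h
    · exact h h0
  · intro M _ _ _ hM y hy
    have hfd : Module.Finite F M := by
      apply Module.finite_of_finrank_pos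
      rw [hM.deg]
      exact (Fact.out : p.Prime).pos
    -- outside R
    have hout : ∀ (z : M), z ≠ 0 → ∀ v, v ∉ R → vl p v (Algebra.norm F z) * sy p ζ v c = 0 := by
      intro z hz v hv
      by_cases hs : sy p ζ v c = 0
      · rw [hs, mul_zero]
      · have h1 : ¬ Dp p v := fun h => hv (Or.inl h)
        have h2 : vl p v c = 0 := by
          by_contra h
          exact hv (Or.inr h)
        rw [hN p hp2 F M ζ c hζ hc hM v h1 h2 hs z hz, zero_mul]
    intro v
    by_cases hv : v ∈ R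
    · obtain ⟨z, hz, hz0, hz1, hz2⟩ := norm_apx M R hR v hv y hy k
      have hNy : Algebra.norm F y ≠ 0 := (Algebra.norm_ne_zero_iff (R := F) (S := M)).2 hy
      rw [key v hv _ hNy _ hz0 hz1 hz2]
      have h3 : ph p ζ c (Algebra.norm F z) = 0 := by
        unfold ph
        have h4 : ∀ w, gg p ζ c w (Algebra.norm F z) = 0 := by
          intro w
          unfold gg
          by_cases hw : Dp p w ∨ vl p w c ≠ 0
          · rw [if_pos hw]
          · rw [if_neg hw]
            exact hout z hz w hw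
        rw [finsum_congr h4, finsum_zero]
      rw [h3, neg_zero]
    · rw [hτ2 v hv]
      exact hout y hy v hv

end Pool.Agent.Q65.LK

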